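import Pool.Agent.Work.MP_0d206b_gt.Bd.D3
import Pool.Agent.Work.MP_0d206b_gt.Bd.D1
import Pool.Agent.Work.MP_0d206b_gt.Bd.D2

/-! Project MP_0d206b_gt, module D: everything, without hypotheses. -/

set_option autoImplicit false

namespace Pool.Agent.Work.MP_0d206b_gt.D

theorem gam1 : StGam1 := I_Gam1
theorem gamTop : StGamTop := I_GamTop gam1
theorem gam2 : StGam2 := I_Gam2
theorem gam34 : StGam34 := I_Gam34
theorem d_kdata : StKData := I_KData
theorem d_hk : StHK := I_HK gam1
theorem d_inv : StInv := I_Inv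
theorem d_fk : StFK := I_FK gam1 d_hk
theorem d_bdd : StBdd := I_Bdd gam2
theorem d_fdata : StFData := I_FData d_kdata d_fk d_inv d_bdd
theorem d_q : StQ := I_Q gam1 gamTop
theorem d_d5 : StD5 := I_D5 gam1 gamTop d_q
theorem d_psiEq : StPsiEq := I_PsiEq
theorem d_scal : StScal := I_Scal
theorem d_pdata : StPData := I_PData d_psiEq d_scal
theorem d_strips : StStrips := I_Strips gam1
theorem d_lamInv : StLamInv := I_LamInv d_strips
theorem d_dens : StDens := I_Dens gam34 d_lamInv
theorem d_tend : StTend := I_Tend d_bdd d_q d_lamInv d_strips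
theorem d_distort : StDistort := I_Distort d_bdd d_scal
theorem d_dd : StDD := I_DD d_bdd d_q
theorem d_ddLip : StDDLip := I_DDLip d_bdd d_dd
theorem d_s : StS := I_S d_dd d_ddLip
theorem d_dxPsi : StDxPsi := I_DxPsi d_scal d_s

/-- The DA map with its slope field exists. -/
theorem da : StDA :=
  I_DA gam1 d_fdata d_d5 d_pdata d_strips d_dens d_tend d_distort d_s d_dxPsi

theorem lin : StLin := I_Lin
theorem linInv : StLinInv := I_LinInv lin
theorem opn : StOpen := I_Open gamTop lin
theorem lip1D : StLip1D := I_Lip1D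
theorem sigma : StSigma := I_Sigma lin linInv opn
theorem sigmaLip : StSigmaLip := I_SigmaLip gamTop lip1D lin opn sigma
theorem kk : StK := I_K lin linInv opn
theorem pic : StPic := I_Pic
theorem gron : StGron := I_Gron
theorem sCurve1 : StSCurve1 := I_SCurve1 pic gron
theorem sCurve2 : StSCurve2 := I_SCurve2 gron
theorem sCurve3 : StSCurve3 := I_SCurve3 gron lin
theorem tube : StTube := I_Tube pic gron gamTop lin sigma sigmaLip
theorem gmap_facts : StGmap := I_Gmap

end Pool.Agent.Work.MP_0d206b_gt.D
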